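import Pool.Agent.helper36.PP.SpecM
import Pool.Agent.helper92.MP.MI

/-!
# Project pp: BF, the form of a ring
-/

set_option autoImplicit false

open Complex Metric Set Filter Topology MeasureTheory MPS MQ Pool.Agent.helper98.ILF

noncomputable section

namespace PPS

/-- the ring -/
def BF_S (x : ℂ) (r : ℝ) : Set ℂ := {z : ℂ | r / 2 < ‖z - x‖ ∧ ‖z - x‖ < r}

/-- the density on the ring -/
def BF_g (x : ℂ) (c₀ c₁ : ℂ) (z : ℂ) : ℂ :=
  (c₀ + c₁ * (z - x)) / (((2 * Real.pi * Real.log 2 : ℝ) : ℂ) * (starRingEnd ℂ) (z - x))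

theorem BF_set (x : ℂ) (r : ℝ) : MeasurableSet (BF_S x r) := by
  have h : Measurable (fun z : ℂ => ‖z - x‖) := (measurable_id.sub_const x).norm
  exact (measurableSet_lt measurable_const h).inter (measurableSet_lt h measurable_const)

theorem BF_eq (x : ℂ) (r : ℝ) (c₀ c₁ : ℂ) : bF x r c₀ c₁ = (BF_S x r).indicator (BF_g x c₀ c₁) := by
  classical
  funext z
  unfold bF BF_g
  by_cases h : r / 2 < ‖z - x‖ ∧ ‖z - x‖ < r
  · rw [if_pos h, indicator_of_mem (show z ∈ BF_S x r from h)]
  · rw [if_neg h, indicator_of_notMem (show z ∉ BF_S x r from h)]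

theorem BF_gmeas (x c₀ c₁ : ℂ) : Measurable (BF_g x c₀ c₁) := by
  unfold BF_g
  have h1 : Measurable (fun z : ℂ => (starRingEnd ℂ) (z - x)) :=
    Complex.continuous_conj.measurable.comp (measurable_id.sub_const x)
  have h2 : Measurable (fun z : ℂ => c₀ + c₁ * (z - x)) :=
    measurable_const.add (measurable_const.mul (measurable_id.sub_const x))
  exact h2.div (measurable_const.mul h1)

theorem BF_K : 1 ≤ Real.pi * Real.log 2 := by
  have h1 := Real.pi_gt_three
  have h2 := Real.log_two_gt_d9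
  nlinarith

theorem BF_bd (x : ℂ) (r : ℝ) (c₀ c₁ : ℂ) (hr : 0 < r) (z : ℂ) :
    ‖bF x r c₀ c₁ z‖ ≤ (‖c₀‖ + ‖c₁‖ * r) / r := by
  rw [BF_eq]
  by_cases h : z ∈ BF_S x r
  · rw [indicator_of_mem h]
    obtain ⟨h1, h2⟩ := h
    unfold BF_g
    have hK := BF_K
    rw [norm_div, norm_mul, Complex.norm_real, Real.norm_of_nonneg (by nlinarith),
      RCLike.norm_conj]
    refine div_le_div₀ (by positivity) ?_ hr ?_
    · refine (norm_add_le _ _).trans ?_
      rw [norm_mul]
      have := mul_le_mul_of_nonneg_left h2.le (norm_nonneg c₁)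
      linarith
    · have h3 : r / 2 * 2 ≤ ‖z - x‖ * (2 * (Real.pi * Real.log 2)) :=
        mul_le_mul h1.le (by linarith) (by norm_num) (norm_nonneg _)
      nlinarith
  · rw [indicator_of_notMem h, norm_zero]
    positivity

theorem BF_symm (p : ℝ × ℝ) (x : ℂ) :
    x + Complex.polarCoord.symm p = circleMap x p.1 p.2 := by
  rw [Complex.polarCoord_symm_apply, circleMap, Complex.exp_mul_I, Complex.ofReal_cos,
    Complex.ofReal_sin]

theorem BF_polar (g : ℂ → ℂ) (x : ℂ) (r : ℝ) (_hr0 : 0 < r) (hg : Measurable g)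
    (hI : Integrable ((BF_S x r).indicator g)) :
    ∫ z, (BF_S x r).indicator g z =
      ∫ t in Ioo (r / 2) r, ∫ θ in (0 : ℝ)..2 * Real.pi, t • g (circleMap x t θ) := by
  set G := (BF_S x r).indicator g with hG
  have hGm : Measurable G := hg.indicator (BF_set x r)
  have hcm : Measurable (fun p : ℝ × ℝ => circleMap x p.1 p.2) := by
    unfold circleMap
    fun_prop
  have h1 : ∫ z, G z = ∫ z, G (x + z) := (integral_add_left_eq_self G x).symm
  have htar : polarCoord.target = Ioi (0 : ℝ) ×ˢ Ioo (-Real.pi) Real.pi := rfl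
  have hmt : MeasurableSet (Ioi (0 : ℝ) ×ˢ Ioo (-Real.pi) Real.pi) :=
    measurableSet_Ioi.prod measurableSet_Ioo
  have h2 : ∫ z, G (x + z) = ∫ p in Ioi (0 : ℝ) ×ˢ Ioo (-Real.pi) Real.pi,
      p.1 • G (circleMap x p.1 p.2) := by
    rw [← Complex.integral_comp_polarCoord_symm, htar]
    simp only [BF_symm]
  have hfin : IntegrableOn (fun p : ℝ × ℝ => p.1 • G (circleMap x p.1 p.2))
      (Ioi (0 : ℝ) ×ˢ Ioo (-Real.pi) Real.pi) := by
    refine ⟨?_, ?_⟩
    · exact (measurable_fst.smul (hGm.comp hcm)).aestronglyMeasurable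
    · have h3 : ∫⁻ p in Ioi (0 : ℝ) ×ˢ Ioo (-Real.pi) Real.pi,
          ‖p.1 • G (circleMap x p.1 p.2)‖ₑ = ∫⁻ z, ‖G (x + z)‖ₑ := by
        rw [← Complex.lintegral_comp_polarCoord_symm, htar]
        refine setLIntegral_congr_fun hmt ?_
        intro p hp
        have hp0 : (0 : ℝ) < p.1 := hp.1
        simp only [BF_symm]
        rw [enorm_smul, Real.enorm_of_nonneg hp0.le, smul_eq_mul]
      show ∫⁻ p in Ioi (0 : ℝ) ×ˢ Ioo (-Real.pi) Real.pi, ‖p.1 • G (circleMap x p.1 p.2)‖ₑ < ⊤
      rw [h3]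
      exact (hI.comp_add_left x).2
  rw [h1, h2]
  rw [Measure.volume_eq_prod] at hfin ⊢
  rw [setIntegral_prod _ hfin]
  have h4 : ∀ t ∈ Ioi (0 : ℝ), ∫ θ in Ioo (-Real.pi) Real.pi, t • G (circleMap x t θ) =
      (Ioo (r / 2) r).indicator
        (fun t => ∫ θ in (0 : ℝ)..2 * Real.pi, t • g (circleMap x t θ)) t := by
    intro t ht
    have ht0 : (0 : ℝ) < t := ht
    have hn : ∀ θ : ℝ, ‖circleMap x t θ - x‖ = t := by
      intro θ
      rw [circleMap_sub_center, norm_circleMap_zero, abs_of_pos ht0]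
    by_cases hT : t ∈ Ioo (r / 2) r
    · rw [indicator_of_mem hT]
      have h5 : ∀ θ : ℝ, G (circleMap x t θ) = g (circleMap x t θ) := by
        intro θ
        rw [hG, indicator_of_mem]
        refine ⟨?_, ?_⟩
        · rw [hn]; exact hT.1
        · rw [hn]; exact hT.2
      simp only [h5]
      rw [← integral_Ioc_eq_integral_Ioo,
        ← intervalIntegral.integral_of_le (by linarith [Real.pi_pos])]
      have hper : Function.Periodic (fun θ : ℝ => t • g (circleMap x t θ)) (2 * Real.pi) := by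
        intro θ
        simp only [periodic_circleMap x t θ]
      have h6 := hper.intervalIntegral_add_eq (-Real.pi) 0
      rw [show -Real.pi + 2 * Real.pi = Real.pi by ring, zero_add] at h6
      exact h6
    · rw [indicator_of_notMem hT]
      have h5 : ∀ θ : ℝ, G (circleMap x t θ) = 0 := by
        intro θ
        rw [hG, indicator_of_notMem]
        rintro ⟨h7, h8⟩
        rw [hn] at h7 h8
        exact hT ⟨h7, h8⟩
      simp only [h5, smul_zero, integral_zero]
  rw [setIntegral_congr_fun measurableSet_Ioi h4, setIntegral_indicator measurableSet_Ioo]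
  congr 2
  ext t
  simp only [mem_inter_iff, mem_Ioi, mem_Ioo]
  constructor
  · exact fun h => h.2
  · exact fun h => ⟨by linarith [h.1, _hr0], h⟩

/-- the inner integral as a circle integral -/
theorem BF_inner (F : ℂ → ℂ) (x c₀ c₁ : ℂ) (t : ℝ) (ht : 0 < t) :
    ∫ θ in (0 : ℝ)..2 * Real.pi, t • (BF_g x c₀ c₁ (circleMap x t θ) * F (circleMap x t θ)) =
      (((2 * Real.pi * Real.log 2 : ℝ) : ℂ) * t * I)⁻¹ *
        ∮ z in C(x, t), (c₀ + c₁ * (z - x)) * F z := by
  rw [circleIntegral, ← intervalIntegral.integral_const_mul]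
  refine intervalIntegral.integral_congr fun θ _ => ?_
  have htc : (t : ℂ) ≠ 0 := by exact_mod_cast ht.ne'
  have hK : ((2 * Real.pi * Real.log 2 : ℝ) : ℂ) ≠ 0 := by
    have := BF_K
    have h2 : (2 * Real.pi * Real.log 2 : ℝ) ≠ 0 := by nlinarith
    exact_mod_cast h2
  have hne : circleMap 0 t θ ≠ 0 := circleMap_ne_center ht.ne'
  have hsub : circleMap x t θ - x = circleMap 0 t θ := circleMap_sub_center x t θ
  have hconj : (starRingEnd ℂ) (circleMap 0 t θ) * circleMap 0 t θ = (t : ℂ) ^ 2 := by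
    rw [mul_comm, Complex.mul_conj, Complex.normSq_eq_norm_sq, norm_circleMap_zero, sq_abs]
    push_cast; ring
  have hconj' : (starRingEnd ℂ) (circleMap 0 t θ) = (t : ℂ) ^ 2 / circleMap 0 t θ := by
    rw [← hconj]; field_simp
  simp only [BF_g, hsub, hconj', Complex.real_smul, deriv_circleMap, smul_eq_mul]
  field_simp

/-- integrability with a simple pole -/
theorem BF_int1 (x : ℂ) (r : ℝ) (c₀ c₁ w : ℂ) (hr : 0 < r) :
    Integrable ((BF_S x r).indicator (fun z => BF_g x c₀ c₁ z * (z - w)⁻¹)) := by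
  have hd : Integrable ((ball w (r + ‖x - w‖)).indicator
      (fun z : ℂ => (‖c₀‖ + ‖c₁‖ * r) / r * (1 / ‖z - w‖))) := by
    rw [integrable_indicator_iff measurableSet_ball]
    exact (MI_int w _).const_mul _
  have hm : Measurable (fun z => BF_g x c₀ c₁ z * (z - w)⁻¹) :=
    (BF_gmeas x c₀ c₁).mul (measurable_id.sub_const w).inv
  refine hd.mono' (hm.indicator (BF_set x r)).aestronglyMeasurable ?_
  refine Eventually.of_forall fun z => ?_
  by_cases h : z ∈ BF_S x r
  · have h1 : z ∈ ball w (r + ‖x - w‖) := by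
      rw [mem_ball, dist_eq_norm]
      have h2 : z - w = (z - x) + (x - w) := by ring
      rw [h2]
      refine lt_of_le_of_lt (norm_add_le _ _) ?_
      linarith [h.2]
    rw [indicator_of_mem h, indicator_of_mem h1, norm_mul, norm_inv, one_div]
    refine mul_le_mul_of_nonneg_right ?_ (by positivity)
    have h3 := BF_bd x r c₀ c₁ hr z
    rwa [BF_eq, indicator_of_mem h] at h3
  · rw [indicator_of_notMem h, norm_zero]
    exact indicator_nonneg (fun z _ => by positivity) z

/-- integrability with a bounded factor -/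
theorem BF_int2 (x : ℂ) (r : ℝ) (c₀ c₁ : ℂ) (hr : 0 < r) (F : ℂ → ℂ) (M : ℝ) (hF : Measurable F)
    (hM : ∀ z ∈ BF_S x r, ‖F z‖ ≤ M) :
    Integrable ((BF_S x r).indicator (fun z => BF_g x c₀ c₁ z * F z)) := by
  rw [integrable_indicator_iff (BF_set x r)]
  have hm : Measurable (fun z => BF_g x c₀ c₁ z * F z) := (BF_gmeas x c₀ c₁).mul hF
  have hfin : volume (BF_S x r) < ⊤ := by
    refine lt_of_le_of_lt (measure_mono ?_) (measure_ball_lt_top (x := x) (r := r))
    intro z hz
    rw [mem_ball, dist_eq_norm]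
    exact hz.2
  refine IntegrableOn.of_bound hfin hm.aestronglyMeasurable ((‖c₀‖ + ‖c₁‖ * r) / r * M) ?_
  rw [ae_restrict_iff' (BF_set x r)]
  refine Eventually.of_forall fun z hz => ?_
  rw [norm_mul]
  have h3 := BF_bd x r c₀ c₁ hr z
  rw [BF_eq, indicator_of_mem hz] at h3
  exact mul_le_mul h3 (hM z hz) (norm_nonneg _) (by positivity)

theorem BF_log (r : ℝ) (hr : 0 < r) : ∫ t in Ioo (r / 2) r, (t : ℂ)⁻¹ = (Real.log 2 : ℝ) := by
  rw [← integral_Ioc_eq_integral_Ioo, ← intervalIntegral.integral_of_le (by linarith)]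
  have h1 : ∀ t : ℝ, (t : ℂ)⁻¹ = ((t⁻¹ : ℝ) : ℂ) := fun t => (Complex.ofReal_inv t).symm
  simp only [h1]
  rw [intervalIntegral.integral_ofReal, integral_inv_of_pos (by linarith) hr]
  congr 2
  field_simp

theorem BF : BF_stmt := by
  intro x r c₀ c₁ hr
  have hK : ((2 * Real.pi * Real.log 2 : ℝ) : ℂ) ≠ 0 := by
    have := BF_K
    have h2 : (2 * Real.pi * Real.log 2 : ℝ) ≠ 0 := by nlinarith
    exact_mod_cast h2
  have hpi : (Real.pi : ℂ) ≠ 0 := by exact_mod_cast Real.pi_ne_zero
  have hlog : (Real.log 2 : ℂ) ≠ 0 := by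
    have : Real.log 2 ≠ 0 := (Real.log_pos one_lt_two).ne'
    exact_mod_cast this
  have hld : Differentiable ℂ (fun z : ℂ => c₀ + c₁ * (z - x)) := by fun_prop
  refine ⟨?_, fun z => BF_bd x r c₀ c₁ hr z, ?_, ?_⟩
  · rw [BF_eq]
    exact (BF_gmeas x c₀ c₁).indicator (BF_set x r)
  · intro w hw
    have e : (fun z => bF x r c₀ c₁ z / (z - w)) =
        (BF_S x r).indicator (fun z => BF_g x c₀ c₁ z * (z - w)⁻¹) := by
      funext z
      rw [BF_eq, div_eq_mul_inv]
      by_cases h : z ∈ BF_S x r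
      · rw [indicator_of_mem h, indicator_of_mem h]
      · rw [indicator_of_notMem h, indicator_of_notMem h, zero_mul]
    have hm : Measurable (fun z => BF_g x c₀ c₁ z * (z - w)⁻¹) :=
      (BF_gmeas x c₀ c₁).mul (measurable_id.sub_const w).inv
    show ∫ z : ℂ, bF x r c₀ c₁ z / (z - w) = c₀ + c₁ * (w - x)
    rw [e, BF_polar _ x r hr hm (BF_int1 x r c₀ c₁ w hr)]
    have h1 : ∀ t ∈ Ioo (r / 2) r, ∫ θ in (0 : ℝ)..2 * Real.pi,
        t • (BF_g x c₀ c₁ (circleMap x t θ) * (circleMap x t θ - w)⁻¹) =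
        (c₀ + c₁ * (w - x)) / (Real.log 2 : ℝ) * (t : ℂ)⁻¹ := by
      intro t ht
      have ht0 : 0 < t := by linarith [ht.1]
      have htc : (t : ℂ) ≠ 0 := by exact_mod_cast ht0.ne'
      rw [BF_inner (fun z => (z - w)⁻¹) x c₀ c₁ t ht0]
      have h2 : w ∈ ball x t := by
        rw [mem_ball, dist_eq_norm]
        linarith [ht.1]
      have h3 := (hld.diffContOnCl (s := ball x t)).circleIntegral_sub_inv_smul h2
      have h4 : ∮ z in C(x, t), (c₀ + c₁ * (z - x)) * (z - w)⁻¹ =
          (2 * Real.pi * I : ℂ) * (c₀ + c₁ * (w - x)) := by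
        rw [← smul_eq_mul (2 * Real.pi * I : ℂ), ← h3]
        simp only [smul_eq_mul]
        congr 1
        funext z
        ring
      rw [h4]
      push_cast
      field_simp
    rw [setIntegral_congr_fun measurableSet_Ioo h1, integral_const_mul, BF_log r hr]
    field_simp
  · intro w hw
    have hδ : 0 < ‖w - x‖ - r := by linarith
    have hdist : ∀ z ∈ BF_S x r, ‖w - x‖ - r ≤ ‖z - w‖ := by
      intro z hz
      have h1 : w - x = (w - z) + (z - x) := by ring
      have h2 : ‖w - x‖ ≤ ‖w - z‖ + ‖z - x‖ := by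
        rw [h1]; exact norm_add_le _ _
      rw [norm_sub_rev w z] at h2
      linarith [hz.2]
    have key : ∀ n : ℕ, ∫ z : ℂ, bF x r c₀ c₁ z * ((z - w)⁻¹) ^ n = 0 := by
      intro n
      have e : (fun z => bF x r c₀ c₁ z * ((z - w)⁻¹) ^ n) =
          (BF_S x r).indicator (fun z => BF_g x c₀ c₁ z * ((z - w)⁻¹) ^ n) := by
        funext z
        rw [BF_eq]
        by_cases h : z ∈ BF_S x r
        · rw [indicator_of_mem h, indicator_of_mem h]
        · rw [indicator_of_notMem h, indicator_of_notMem h, zero_mul]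
      have hmF : Measurable (fun z : ℂ => ((z - w)⁻¹) ^ n) :=
        (measurable_id.sub_const w).inv.pow_const n
      have hm : Measurable (fun z => BF_g x c₀ c₁ z * ((z - w)⁻¹) ^ n) :=
        (BF_gmeas x c₀ c₁).mul hmF
      have hint := BF_int2 x r c₀ c₁ hr (fun z : ℂ => ((z - w)⁻¹) ^ n) ((‖w - x‖ - r)⁻¹ ^ n)
        hmF (fun z hz => by
          rw [norm_pow, norm_inv]
          exact pow_le_pow_left₀ (by positivity) (inv_anti₀ hδ (hdist z hz)) n)
      rw [e, BF_polar _ x r hr hm hint]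
      have h1 : ∀ t ∈ Ioo (r / 2) r, ∫ θ in (0 : ℝ)..2 * Real.pi,
          t • (BF_g x c₀ c₁ (circleMap x t θ) * ((circleMap x t θ - w)⁻¹) ^ n) = 0 := by
        intro t ht
        have ht0 : 0 < t := by linarith [ht.1]
        rw [BF_inner (fun z => ((z - w)⁻¹) ^ n) x c₀ c₁ t ht0]
        have h5 : DifferentiableOn ℂ (fun z : ℂ => (c₀ + c₁ * (z - x)) * ((z - w)⁻¹) ^ n)
            (closedBall x t) := by
          intro z hz
          rw [mem_closedBall, dist_eq_norm] at hz
          have hzw : z - w ≠ 0 := by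
            intro h0
            rw [sub_eq_zero] at h0
            rw [h0] at hz
            linarith [ht.2]
          have h6 : DifferentiableAt ℂ (fun z : ℂ => (z - w)⁻¹) z :=
            (differentiableAt_id.sub_const w).inv hzw
          exact ((hld z).mul (h6.pow n)).differentiableWithinAt
        have h7 : ∮ z in C(x, t), (c₀ + c₁ * (z - x)) * ((z - w)⁻¹) ^ n = 0 := by
          refine Complex.circleIntegral_eq_zero_of_differentiable_on_off_countable ht0.le
            (countable_empty) h5.continuousOn ?_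
          intro z hz
          have hzb : z ∈ ball x t := hz.1
          exact h5.differentiableAt (mem_of_superset (isOpen_ball.mem_nhds hzb)
            ball_subset_closedBall)
        rw [h7, mul_zero]
      rw [setIntegral_congr_fun measurableSet_Ioo h1, integral_zero]
    refine ⟨?_, ?_⟩
    · have h := key 1
      simp only [pow_one, ← div_eq_mul_inv] at h
      exact h
    · have h := key 2
      simp only [inv_pow, ← div_eq_mul_inv] at h
      exact h

end PPS
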