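import Pool.Agent.helper36.PP.SpecB

/-!
# pp:DG: derivatives of the levels at the pole
-/

set_option autoImplicit false

open Complex Metric Set Filter Topology MeasureTheory MPS

noncomputable section

namespace PPS

theorem DG : DG_stmt := by
  intro n k _ f b g ψ ra R ε δ A G Q h
  have hc := h.su.cyc
  have hsys := h.sys
  have hpn := (h.su.mx 0).pn
  have hA0 : 0 ≤ A 0 := by
    have := hsys.a0
    have := h.d0
    linarith
  have hb0 : ball (0 : ℂ) (Real.exp (-A 0)) ⊆ ball 0 1 := by
    refine ball_subset_ball ?_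
    rw [← Real.exp_zero]
    exact Real.exp_le_exp.mpr (by linarith)
  have hr : ∀ q, 0 < Real.exp (-A q) := fun q => Real.exp_pos _
  have hdiff : ∀ q ≤ Q, DifferentiableOn ℂ (G q) (ball 0 (Real.exp (-A q))) := by
    intro q hq
    rcases Nat.eq_zero_or_pos q with h0 | h0
    · subst h0
      rw [hsys.g0]
      exact hpn.diff.mono hb0
    · exact hsys.diff q h0 hq
  have hrel : ∀ q < Q, deriv (G q) 0 = fd f (b (-((q + 1 : ℕ) : ZMod k))) * deriv (G (q + 1)) 0 := by
    intro q hq
    have h1 : HasDerivAt (G (q + 1)) (deriv (G (q + 1)) 0) 0 :=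
      ((hdiff (q + 1) hq).differentiableAt
        (isOpen_ball.mem_nhds (mem_ball_self (hr (q + 1))))).hasDerivAt
    have h2 : HasDerivAt (fun u => f.eval (G (q + 1) u))
        (f.derivative.eval (G (q + 1) 0) * deriv (G (q + 1)) 0) 0 :=
      (f.hasDerivAt (G (q + 1) 0)).comp 0 h1
    have h3 : (fun u => f.eval (G (q + 1) u)) =ᶠ[𝓝 (0 : ℂ)] G q := by
      filter_upwards [isOpen_ball.mem_nhds (mem_ball_self (hr (q + 1)))] with u hu
      exact (hsys.rel q hq u hu).1
    have h4 := h3.deriv_eq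
    rw [← h4, h2.deriv, hsys.val (q + 1) hq, fd]
  have hfd : ∀ i, fd f (b i) ≠ 0 := hc.ne0
  have key : ∀ q ≤ Q, deriv (G q) 0 * ∏ j ∈ Finset.Icc 1 q, fd f (b (0 - (j : ZMod k))) =
      deriv (ψ 0) 0 := by
    intro q
    induction q with
    | zero =>
      intro _
      rw [hsys.g0]
      simp
    | succ q ih =>
      intro hq
      rw [Finset.prod_Icc_succ_top (by omega), ← ih (by omega), hrel q hq, zero_sub]
      ring
  have hd := (h.su.mx (-(Q : ZMod k))).pn.der
  have hP : ∏ j ∈ Finset.Icc 1 Q, fd f (b (0 - (j : ZMod k))) ≠ 0 :=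
    Finset.prod_ne_zero_iff.mpr fun j _ => hfd _
  unfold Kq
  rw [← key Q le_rfl, zero_sub]
  field_simp

end PPS
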